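import Mathlib

/-!
# NS: localisation of moments (lower bound of a Gaussian tail from even moments)
-/

set_option autoImplicit false
open MeasureTheory Set Filter Topology
open scoped ENNReal

namespace Pool.Agent.Helper62.NS

/-- `(2k)! / (k! 4^k)`, the even moments of the Gaussian of variance `1/2` -/
noncomputable def gm (k : ℕ) : ℝ := ∏ j ∈ Finset.range k, ((j : ℝ) + 1 / 2)

theorem gm_succ (k : ℕ) : gm (k + 1) = gm k * ((k : ℝ) + 1 / 2) := by
  unfold gm
  rw [Finset.prod_range_succ]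

theorem gm_pos (k : ℕ) : 0 < gm k := by
  unfold gm
  exact Finset.prod_pos fun j _ => by positivity

theorem gm_eq (k : ℕ) : gm k = (Nat.centralBinom k : ℝ) * (k.factorial : ℝ) / 4 ^ k := by
  induction k with
  | zero => simp [gm]
  | succ k ih =>
    have h1 := Nat.succ_mul_centralBinom_succ k
    have h2 : ((k : ℝ) + 1) * (Nat.centralBinom (k + 1) : ℝ) = 2 * (2 * k + 1) * (Nat.centralBinom k : ℝ) := by
      exact_mod_cast h1
    rw [gm_succ, ih, Nat.factorial_succ]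
    push_cast
    rw [show (Nat.centralBinom (k + 1) : ℝ) * (((k : ℝ) + 1) * (k.factorial : ℝ)) =
      (((k : ℝ) + 1) * (Nat.centralBinom (k + 1) : ℝ)) * (k.factorial : ℝ) by ring, h2, pow_succ]
    have h4 : (4 : ℝ) ^ k ≠ 0 := by positivity
    field_simp
    ring

theorem gm_lower (m : ℕ) (hm : 1 ≤ m) : (m : ℝ) ^ m * Real.exp (-m) / (2 * m) ≤ gm m := by
  have hmp : (0 : ℝ) < m := by exact_mod_cast hm
  have h1 : ∀ k : ℕ, ((k.factorial : ℕ) : ℝ) / 2 ≤ gm (k + 1) := by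
    intro k
    induction k with
    | zero => simp [gm]
    | succ k ih =>
      rw [gm_succ, Nat.factorial_succ]
      push_cast
      have h2 : (0 : ℝ) ≤ (k.factorial : ℝ) := by positivity
      have h3 := gm_pos (k + 1)
      nlinarith
  obtain ⟨k, rfl⟩ : ∃ k, m = k + 1 := ⟨m - 1, by omega⟩
  have h4 := Real.pow_div_factorial_le_exp ((k + 1 : ℕ) : ℝ) hmp.le (k + 1)
  have h5 : (0 : ℝ) < ((k + 1).factorial : ℝ) := by positivity
  rw [div_le_iff₀ h5] at h4
  refine le_trans ?_ (h1 k)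
  rw [div_le_div_iff₀ (by positivity) (by norm_num)]
  have h6 : (((k + 1).factorial : ℕ) : ℝ) = ((k + 1 : ℕ) : ℝ) * (k.factorial : ℝ) := by
    rw [Nat.factorial_succ]
    push_cast
    ring
  rw [h6] at h4
  have h7 : Real.exp ((k + 1 : ℕ) : ℝ) * Real.exp (-((k + 1 : ℕ) : ℝ)) = 1 := by
    rw [← Real.exp_add]
    simp
  have h8 : ((k + 1 : ℕ) : ℝ) ^ (k + 1) * Real.exp (-((k + 1 : ℕ) : ℝ)) ≤
      ((k + 1 : ℕ) : ℝ) * (k.factorial : ℝ) := by
    calc ((k + 1 : ℕ) : ℝ) ^ (k + 1) * Real.exp (-((k + 1 : ℕ) : ℝ))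
        ≤ (Real.exp ((k + 1 : ℕ) : ℝ) * (((k + 1 : ℕ) : ℝ) * (k.factorial : ℝ))) * Real.exp (-((k + 1 : ℕ) : ℝ)) :=
          mul_le_mul_of_nonneg_right h4 (Real.exp_pos _).le
      _ = (Real.exp ((k + 1 : ℕ) : ℝ) * Real.exp (-((k + 1 : ℕ) : ℝ))) * (((k + 1 : ℕ) : ℝ) * (k.factorial : ℝ)) := by
          ring
      _ = _ := by rw [h7, one_mul]
  nlinarith

/-- lower ratio -/
theorem gm_lo {a2 V q : ℝ} {n : ℕ} (hV : 0 < V) (ha : 0 ≤ a2) (hq : 0 < q)
    (h : q * a2 ≤ ((n : ℝ) + 1 / 2) * V) (k : ℕ) :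
    a2 ^ k * (gm n * V ^ n) * q ^ k ≤ gm (n + k) * V ^ (n + k) := by
  induction k with
  | zero => simp
  | succ k ih =>
    rw [← add_assoc, gm_succ, pow_succ, pow_succ, pow_succ]
    have h1 : q * a2 ≤ (((n + k : ℕ) : ℝ) + 1 / 2) * V := by
      refine h.trans (mul_le_mul_of_nonneg_right ?_ hV.le)
      push_cast
      have : (0 : ℝ) ≤ k := Nat.cast_nonneg k
      linarith
    have h2 : 0 ≤ gm (n + k) * V ^ (n + k) := mul_nonneg (gm_pos _).le (by positivity)
    calc a2 ^ k * a2 * (gm n * V ^ n) * (q ^ k * q) = (a2 ^ k * (gm n * V ^ n) * q ^ k) * (q * a2) := by ring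
      _ ≤ (gm (n + k) * V ^ (n + k)) * (q * a2) := mul_le_mul_of_nonneg_right ih (by positivity)
      _ ≤ (gm (n + k) * V ^ (n + k)) * ((((n + k : ℕ) : ℝ) + 1 / 2) * V) := mul_le_mul_of_nonneg_left h1 h2
      _ = _ := by ring

/-- upper ratio -/
theorem gm_hi {b2 V q : ℝ} {m k : ℕ} (hV : 0 < V) (hq : 0 < q)
    (h : q * (((m + k : ℕ) : ℝ) * V) ≤ b2) {j : ℕ} (hj : j ≤ k) :
    gm (m + j) * V ^ (m + j) * q ^ j ≤ b2 ^ j * (gm m * V ^ m) := by
  have hb : 0 ≤ b2 := le_trans (by positivity) h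
  induction j with
  | zero => simp
  | succ j ih =>
    have ih := ih (by omega)
    rw [← add_assoc, gm_succ, pow_succ, pow_succ, pow_succ]
    have h1 : q * ((((m + j : ℕ) : ℝ) + 1 / 2) * V) ≤ b2 := by
      refine le_trans (mul_le_mul_of_nonneg_left (mul_le_mul_of_nonneg_right ?_ hV.le) hq.le) h
      have : ((j : ℝ) + 1) ≤ k := by exact_mod_cast hj
      push_cast
      linarith
    have h2 : 0 ≤ b2 ^ j * (gm m * V ^ m) := mul_nonneg (by positivity) (mul_nonneg (gm_pos _).le (by positivity))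
    calc gm (m + j) * ((((m + j : ℕ) : ℝ)) + 1 / 2) * (V ^ (m + j) * V) * (q ^ j * q)
        = (gm (m + j) * V ^ (m + j) * q ^ j) * (q * ((((m + j : ℕ) : ℝ) + 1 / 2) * V)) := by ring
      _ ≤ (b2 ^ j * (gm m * V ^ m)) * (q * ((((m + j : ℕ) : ℝ) + 1 / 2) * V)) :=
          mul_le_mul_of_nonneg_right ih (by positivity)
      _ ≤ (b2 ^ j * (gm m * V ^ m)) * b2 := mul_le_mul_of_nonneg_left h1 h2
      _ = _ := by ring

/-- the pointwise inequality -/
theorem pt {x a b : ℝ} (ha : 0 < a) (hb : 0 < b) {n k l : ℕ} :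
    x ^ (2 * (n + k)) ≤ a ^ (2 * k) * x ^ (2 * n) + (if a ≤ |x| then b ^ (2 * (n + k)) else 0) +
      x ^ (2 * (n + k + l)) / b ^ (2 * l) := by
  have e1 : ∀ j : ℕ, x ^ (2 * j) = |x| ^ (2 * j) := fun j => by rw [pow_mul, pow_mul, sq_abs]
  rw [e1, e1, e1]
  have hx : 0 ≤ |x| := abs_nonneg x
  have h1 : 0 ≤ a ^ (2 * k) * |x| ^ (2 * n) := by positivity
  have h3 : 0 ≤ |x| ^ (2 * (n + k + l)) / b ^ (2 * l) := by positivity
  by_cases h : a ≤ |x|
  · rw [if_pos h]
    by_cases h' : |x| ≤ b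
    · have := pow_le_pow_left₀ hx h' (2 * (n + k))
      linarith
    · have h4 : |x| ^ (2 * (n + k)) ≤ |x| ^ (2 * (n + k + l)) / b ^ (2 * l) := by
        rw [le_div_iff₀ (by positivity), show 2 * (n + k + l) = 2 * (n + k) + 2 * l by ring, pow_add]
        exact mul_le_mul_of_nonneg_left (pow_le_pow_left₀ hb.le (not_le.1 h').le _) (by positivity)
      have h5 : 0 ≤ b ^ (2 * (n + k)) := by positivity
      linarith
  · rw [if_neg h]
    have h4 : |x| ^ (2 * (n + k)) ≤ a ^ (2 * k) * |x| ^ (2 * n) := by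
      rw [show 2 * (n + k) = 2 * k + 2 * n by ring, pow_add]
      exact mul_le_mul_of_nonneg_right (pow_le_pow_left₀ hx (not_le.1 h).le _) (by positivity)
    linarith

/-- the integrated inequality -/
theorem loc_int {A B : ℝ} {X : ℝ → ℝ} (hX : Continuous X) {a b : ℝ} (ha : 0 < a) (hb : 0 < b) (n k l : ℕ) :
    ∫ t in Icc A B, X t ^ (2 * (n + k)) ≤ a ^ (2 * k) * (∫ t in Icc A B, X t ^ (2 * n)) +
      b ^ (2 * (n + k)) * volume.real {t | t ∈ Icc A B ∧ a ≤ |X t|} +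
      (∫ t in Icc A B, X t ^ (2 * (n + k + l))) / b ^ (2 * l) := by
  have hi : ∀ j : ℕ, IntegrableOn (fun t => X t ^ (2 * j)) (Icc A B) := fun j => (hX.pow _).integrableOn_Icc
  have hms : MeasurableSet {t | a ≤ |X t|} := measurableSet_le measurable_const hX.abs.measurable
  have hset : {t | t ∈ Icc A B ∧ a ≤ |X t|} = {t | a ≤ |X t|} ∩ Icc A B := by
    ext t
    simp [and_comm]
  have e2 : ∀ t, (if a ≤ |X t| then b ^ (2 * (n + k)) else 0) =
      ({t | a ≤ |X t|} : Set ℝ).indicator (fun _ => b ^ (2 * (n + k))) t := by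
    intro t
    rw [indicator_apply]
    rfl
  have hi2 : IntegrableOn (fun t => if a ≤ |X t| then b ^ (2 * (n + k)) else 0) (Icc A B) := by
    simp_rw [e2]
    refine Integrable.indicator ?_ hms
    exact integrableOn_const (by simp) (by simp)
  have h1 : ∫ t in Icc A B, X t ^ (2 * (n + k)) ≤ ∫ t in Icc A B, (a ^ (2 * k) * X t ^ (2 * n) +
      (if a ≤ |X t| then b ^ (2 * (n + k)) else 0) + X t ^ (2 * (n + k + l)) / b ^ (2 * l)) := by
    refine integral_mono (hi _) ((((hi n).const_mul _).add hi2).add ((hi _).div_const _)) fun t => ?_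
    exact pt ha hb
  refine h1.trans (le_of_eq ?_)
  have ha1 : Integrable (fun t => a ^ (2 * k) * X t ^ (2 * n)) (volume.restrict (Icc A B)) := (hi n).const_mul _
  have ha2 : Integrable (fun t => X t ^ (2 * (n + k + l)) / b ^ (2 * l)) (volume.restrict (Icc A B)) :=
    (hi _).div_const _
  have ha3 : Integrable (fun t => if a ≤ |X t| then b ^ (2 * (n + k)) else 0) (volume.restrict (Icc A B)) := hi2
  have ha4 : Integrable (fun t => a ^ (2 * k) * X t ^ (2 * n) + (if a ≤ |X t| then b ^ (2 * (n + k)) else 0))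
      (volume.restrict (Icc A B)) := ha1.add ha3
  rw [integral_add ha4 ha2, integral_add ha1 ha3, integral_const_mul, integral_div]
  congr 2
  simp_rw [e2]
  rw [integral_indicator hms, setIntegral_const, smul_eq_mul, mul_comm, hset]
  congr 1
  rw [measureReal_restrict_apply' measurableSet_Icc]

/-- **Localisation**: a Gaussian lower bound for the tail from the even moments -/
theorem loc {h : ℝ} (hh : 0 < h) (hh1 : h ≤ 1) : ∃ (c : ℝ) (K : ℕ), 0 < c ∧ ∀ (A B T V e : ℝ) (X : ℝ → ℝ),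
    Continuous X → 0 < T → 0 < V → V ≤ 1 → 0 < e → e ≤ 3 →
    (∀ n : ℕ, (n : ℝ) ≤ K / V → 1 / 2 * (gm n * V ^ n) * T ≤ ∫ t in Icc A B, X t ^ (2 * n)) →
    (∀ n : ℕ, (n : ℝ) ≤ K / V → ∫ t in Icc A B, X t ^ (2 * n) ≤ 2 * (gm n * V ^ n) * T) →
    ENNReal.ofReal (c * Real.exp (-((1 + h) * e ^ 2 / V)) * T) ≤ volume {t | t ∈ Icc A B ∧ e ≤ |X t|} := by
  set r : ℝ := h / 5 with hr
  have hr0 : 0 < r := by positivity
  obtain ⟨k, hk⟩ : ∃ k : ℕ, 16 ≤ (1 + r) ^ k := by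
    obtain ⟨k, hk⟩ := pow_unbounded_of_one_lt 16 (by linarith : 1 < 1 + r)
    exact ⟨k, hk.le⟩
  refine ⟨r / 8 * Real.exp (-k) * Real.exp (-((1 + 2 * r) * (1 + k))), 2 * k + 12, by positivity, ?_⟩
  intro A B T V e X hX hT hV hV1 he he1 hlo hup
  set n : ℕ := ⌈(1 + r) * e ^ 2 / V⌉₊ with hn
  have hn1 : (1 + r) * e ^ 2 / V ≤ n := Nat.le_ceil _
  have hn2 : (n : ℝ) < (1 + r) * e ^ 2 / V + 1 := Nat.ceil_lt_add_one (by positivity)
  have hn0 : 1 ≤ n := Nat.one_le_ceil_iff.2 (by positivity)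
  have he2 : e ^ 2 ≤ 9 := by nlinarith
  have hr1 : r ≤ 1 / 5 := by rw [hr]; linarith
  have hVi : 1 ≤ 1 / V := by rw [le_div_iff₀ hV]; linarith
  have hbd : ((n + k + k : ℕ) : ℝ) ≤ ((2 * k + 12 : ℕ) : ℝ) / V := by
    push_cast
    rw [div_eq_mul_one_div (2 * (k : ℝ) + 12) V]
    have h1 : (1 + r) * e ^ 2 / V = (1 + r) * e ^ 2 * (1 / V) := by ring
    rw [h1] at hn2
    have h2 : (1 + r) * e ^ 2 ≤ 11 := by nlinarith
    have h3 : (1 + r) * e ^ 2 * (1 / V) ≤ 11 * (1 / V) := mul_le_mul_of_nonneg_right h2 (by linarith)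
    have h4 : (0 : ℝ) ≤ k := Nat.cast_nonneg k
    nlinarith
  have hb1 : ((n : ℕ) : ℝ) ≤ ((2 * k + 12 : ℕ) : ℝ) / V := le_trans (by push_cast; nlinarith [(Nat.cast_nonneg k : (0:ℝ) ≤ k)]) hbd
  have hb2 : ((n + k : ℕ) : ℝ) ≤ ((2 * k + 12 : ℕ) : ℝ) / V := le_trans (by push_cast; nlinarith [(Nat.cast_nonneg k : (0:ℝ) ≤ k)]) hbd
  set m : ℕ := n + k with hm
  have hm1 : 1 ≤ m := by omega
  have hmp : (0 : ℝ) < m := by exact_mod_cast hm1
  set b2 : ℝ := (1 + r) * (((m + k : ℕ) : ℝ) * V) with hb2d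
  have hmk : (0 : ℝ) < ((m + k : ℕ) : ℝ) := by exact_mod_cast (by omega : 0 < m + k)
  have hb2p : 0 < b2 := by positivity
  set b : ℝ := Real.sqrt b2 with hbd'
  have hbp : 0 < b := Real.sqrt_pos.2 hb2p
  have hbsq : b ^ 2 = b2 := Real.sq_sqrt hb2p.le
  have hGm : 0 < gm m * V ^ m := mul_pos (gm_pos _) (by positivity)
  -- the three terms
  have hI := loc_int (A := A) (B := B) hX he hbp n k k
  have h1 : e ^ (2 * k) * (∫ t in Icc A B, X t ^ (2 * n)) ≤ 1 / 8 * (gm m * V ^ m) * T := by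
    have h2 : e ^ (2 * k) * (gm n * V ^ n) * (1 + r) ^ k ≤ gm m * V ^ m := by
      have h3 := gm_lo (a2 := e ^ 2) (V := V) (q := 1 + r) (n := n) hV (by positivity) (by positivity) (by
        have h4 : (1 + r) * e ^ 2 ≤ n * V := by rwa [div_le_iff₀ hV] at hn1
        nlinarith) k
      rwa [← pow_mul] at h3
    have h5 := hup n hb1
    have h6 : e ^ (2 * k) * (∫ t in Icc A B, X t ^ (2 * n)) ≤ e ^ (2 * k) * (2 * (gm n * V ^ n) * T) :=
      mul_le_mul_of_nonneg_left h5 (by positivity)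
    have h7 : 0 ≤ e ^ (2 * k) * (gm n * V ^ n) := mul_nonneg (by positivity) (mul_nonneg (gm_pos _).le (by positivity))
    have h8 : 16 * (e ^ (2 * k) * (gm n * V ^ n)) ≤ gm m * V ^ m := by nlinarith
    nlinarith
  have h2 : (∫ t in Icc A B, X t ^ (2 * (n + k + k))) / b ^ (2 * k) ≤ 1 / 8 * (gm m * V ^ m) * T := by
    rw [div_le_iff₀ (by positivity)]
    have h3 := gm_hi (b2 := b2) (V := V) (q := 1 + r) (m := m) (k := k) hV (by positivity) le_rfl le_rfl
    have h4 := hup (n + k + k) hbd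
    rw [pow_mul, hbsq]
    have h7 : 0 ≤ gm (m + k) * V ^ (m + k) := mul_nonneg (gm_pos _).le (by positivity)
    have h8 : 16 * (gm (m + k) * V ^ (m + k)) ≤ b2 ^ k * (gm m * V ^ m) := by nlinarith
    refine h4.trans ?_
    have h9 : 2 * (gm (m + k) * V ^ (m + k)) * T ≤ 1 / 8 * (b2 ^ k * (gm m * V ^ m)) * T := by nlinarith
    exact h9.trans (le_of_eq (by ring))
  have h3 := hlo m hb2
  have h4 : 1 / 4 * (gm m * V ^ m) * T ≤ b ^ (2 * m) * volume.real {t | t ∈ Icc A B ∧ e ≤ |X t|} := by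
    linarith
  rw [pow_mul, hbsq] at h4
  -- the constant
  have hfin : volume {t | t ∈ Icc A B ∧ e ≤ |X t|} ≠ ⊤ :=
    ((measure_mono fun t ht => ht.1).trans_lt (by simp : volume (Icc A B) < ⊤)).ne
  rw [← ofReal_measureReal hfin]
  refine ENNReal.ofReal_le_ofReal ?_
  have h5 : 1 / 4 * (gm m * V ^ m) * T / b2 ^ m ≤ volume.real {t | t ∈ Icc A B ∧ e ≤ |X t|} := by
    rw [div_le_iff₀ (by positivity)]
    linarith
  refine le_trans ?_ h5
  have h6 : b2 ^ m = (1 + r) ^ m * ((m + k : ℕ) : ℝ) ^ m * V ^ m := by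
    rw [hb2d, mul_pow, mul_pow, mul_assoc]
  have h7 : 1 / 4 * (gm m * V ^ m) * T / b2 ^ m = 1 / 4 * (gm m / ((1 + r) ^ m * ((m + k : ℕ) : ℝ) ^ m)) * T := by
    rw [h6]
    have : V ^ m ≠ 0 := by positivity
    field_simp
  rw [h7]
  refine mul_le_mul_of_nonneg_right ?_ hT.le
  have hg := gm_lower m hm1
  have h8 : (1 + r) ^ m ≤ Real.exp (r * m) := by
    have h9 : 1 + r ≤ Real.exp r := by linarith [Real.add_one_le_exp r]
    calc (1 + r) ^ m ≤ Real.exp r ^ m := pow_le_pow_left₀ (by linarith) h9 m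
      _ = Real.exp (r * m) := by rw [← Real.exp_nat_mul, mul_comm]
  have h9 : ((m + k : ℕ) : ℝ) ^ m ≤ (m : ℝ) ^ m * Real.exp k := by
    have h10 : ((m + k : ℕ) : ℝ) = m * (k / m + 1) := by
      push_cast
      field_simp
      ring
    have h11 : (k : ℝ) / m + 1 ≤ Real.exp (k / m) := Real.add_one_le_exp _
    rw [h10, mul_pow]
    refine mul_le_mul_of_nonneg_left ?_ (by positivity)
    calc ((k : ℝ) / m + 1) ^ m ≤ Real.exp (k / m) ^ m := pow_le_pow_left₀ (by positivity) h11 m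
      _ = Real.exp k := by
          rw [← Real.exp_nat_mul]
          congr 1
          field_simp
  have h10 : r * Real.exp (-(r * m)) ≤ 1 / m := by
    rw [le_div_iff₀ hmp]
    have h11 : r * m ≤ Real.exp (r * m) := by linarith [Real.add_one_le_exp (r * m)]
    have h12 : Real.exp (r * m) * Real.exp (-(r * m)) = 1 := by rw [← Real.exp_add]; simp
    have h13 := Real.exp_pos (-(r * m))
    nlinarith
  have h11 : Real.exp (-m) / (2 * m) * (Real.exp (-(r * m)) * Real.exp (-k)) ≤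
      gm m / ((1 + r) ^ m * ((m + k : ℕ) : ℝ) ^ m) := by
    rw [le_div_iff₀ (by positivity)]
    refine le_trans ?_ hg
    have h12 : (1 + r) ^ m * ((m + k : ℕ) : ℝ) ^ m ≤ Real.exp (r * m) * ((m : ℝ) ^ m * Real.exp k) :=
      mul_le_mul h8 h9 (by positivity) (by positivity)
    have h13 : Real.exp (r * m) * Real.exp (-(r * m)) = 1 := by rw [← Real.exp_add]; simp
    have h14 : Real.exp (k : ℝ) * Real.exp (-(k : ℝ)) = 1 := by rw [← Real.exp_add]; simp
    calc Real.exp (-m) / (2 * m) * (Real.exp (-(r * m)) * Real.exp (-k)) * ((1 + r) ^ m * ((m + k : ℕ) : ℝ) ^ m)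
        ≤ Real.exp (-m) / (2 * m) * (Real.exp (-(r * m)) * Real.exp (-k)) *
            (Real.exp (r * m) * ((m : ℝ) ^ m * Real.exp k)) := mul_le_mul_of_nonneg_left h12 (by positivity)
      _ = (m : ℝ) ^ m * Real.exp (-m) / (2 * m) * (Real.exp (r * m) * Real.exp (-(r * m))) *
            (Real.exp (k : ℝ) * Real.exp (-(k : ℝ))) := by ring
      _ = _ := by rw [h13, h14, mul_one, mul_one]
  have h12 : r / 8 * Real.exp (-k) * Real.exp (-((1 + 2 * r) * m)) ≤
      1 / 4 * (gm m / ((1 + r) ^ m * ((m + k : ℕ) : ℝ) ^ m)) := by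
    have h13 : r / 8 * Real.exp (-k) * Real.exp (-((1 + 2 * r) * m)) =
        1 / 4 * (Real.exp (-m) * (r * Real.exp (-(r * m))) / 2 * (Real.exp (-(r * m)) * Real.exp (-k))) := by
      have h14 : Real.exp (-((1 + 2 * r) * m)) = Real.exp (-m) * Real.exp (-(r * m)) * Real.exp (-(r * m)) := by
        rw [← Real.exp_add, ← Real.exp_add]
        congr 1
        ring
      rw [h14]
      ring
    rw [h13]
    refine mul_le_mul_of_nonneg_left (le_trans ?_ h11) (by norm_num)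
    refine mul_le_mul_of_nonneg_right ?_ (by positivity)
    have h15 : Real.exp (-m) * (r * Real.exp (-(r * m))) ≤ Real.exp (-m) * (1 / m) :=
      mul_le_mul_of_nonneg_left h10 (Real.exp_pos _).le
    have h16 : Real.exp (-(m : ℝ)) / (2 * m) = Real.exp (-m) * (1 / m) / 2 := by
      field_simp
    rw [h16]
    linarith
  refine le_trans ?_ h12
  have h13 : (1 + 2 * r) * (m : ℝ) ≤ (1 + 2 * r) * (1 + k) + (1 + h) * e ^ 2 / V := by
    have h14 : (m : ℝ) ≤ (1 + r) * e ^ 2 / V + (1 + k) := by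
      rw [hm]
      push_cast
      linarith
    have h15 : (1 + 2 * r) * (m : ℝ) ≤ (1 + 2 * r) * ((1 + r) * e ^ 2 / V + (1 + k)) :=
      mul_le_mul_of_nonneg_left h14 (by linarith)
    have h16 : (1 + 2 * r) * (1 + r) ≤ 1 + h := by
      rw [hr]
      nlinarith
    have h17 : (1 + 2 * r) * ((1 + r) * e ^ 2 / V) ≤ (1 + h) * e ^ 2 / V := by
      have h18 : (1 + 2 * r) * ((1 + r) * e ^ 2 / V) = ((1 + 2 * r) * (1 + r)) * (e ^ 2 / V) := by ring
      have h19 : (1 + h) * e ^ 2 / V = (1 + h) * (e ^ 2 / V) := by ring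
      rw [h18, h19]
      exact mul_le_mul_of_nonneg_right h16 (by positivity)
    nlinarith
  have h14 : Real.exp (-((1 + 2 * r) * (1 + k))) * Real.exp (-((1 + h) * e ^ 2 / V)) ≤ Real.exp (-((1 + 2 * r) * m)) := by
    rw [← Real.exp_add]
    exact Real.exp_le_exp.2 (by linarith)
  calc r / 8 * Real.exp (-k) * Real.exp (-((1 + 2 * r) * (1 + k))) * Real.exp (-((1 + h) * e ^ 2 / V))
      = r / 8 * Real.exp (-k) * (Real.exp (-((1 + 2 * r) * (1 + k))) * Real.exp (-((1 + h) * e ^ 2 / V))) := by ring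
    _ ≤ _ := mul_le_mul_of_nonneg_left h14 (by positivity)

end Pool.Agent.Helper62.NS
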