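import Pool.Agent.Helper57.NS.Defs
import Pool.Agent.Helper62.NS.Loc

/-!
# NS: block D4, the lower tail of the prime sum
-/

set_option autoImplicit false
open MeasureTheory Set Filter Topology
open scoped ENNReal
open Pool.Agent.Helper57.Zeta Pool.Agent.Helper57.LH Pool.Agent.Helper57.ED
open Pool.Agent.Helper93.UG (zc sp)
open Pool.Agent.Helper69.UG (XX NX)
open Pool.Agent.Helper57.TX (QX DP rs)
open Pool.Agent.Helper57.NS

namespace Pool.Agent.Helper62.NS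

theorem gm_conv (m : ℕ) (V : ℝ) :
    (((2 * m).factorial : ℝ) / (2 ^ m * m.factorial)) * (V / 2) ^ m = gm m * V ^ m := by
  rw [gm_eq]
  have h1 : ((2 * m).factorial : ℝ) = (Nat.centralBinom m : ℝ) * (m.factorial : ℝ) * (m.factorial : ℝ) := by
    have h2 := Nat.choose_mul_factorial_mul_factorial (n := 2 * m) (k := m) (by omega)
    rw [show 2 * m - m = m by omega] at h2
    rw [Nat.centralBinom_eq_two_mul_choose]
    exact_mod_cast h2.symm
  have h3 : (m.factorial : ℝ) ≠ 0 := by positivity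
  have h4 : (4 : ℝ) ^ m = 2 ^ m * 2 ^ m := by rw [← mul_pow]; norm_num
  rw [h1, h4, div_pow]
  field_simp

theorem DP_cont' (Q : Finset ℕ) (hQ : ∀ p ∈ Q, p.Prime) (r : ℕ → ℝ) : Continuous (DP Q r) := by
  unfold DP
  refine continuous_finsetSum _ fun p hp => continuous_const.mul ?_
  have h0 : (p : ℂ) ≠ 0 := by exact_mod_cast (hQ p hp).ne_zero
  refine Continuous.const_cpow ?_ (Or.inl h0)
  exact (continuous_const.add (Complex.continuous_ofReal.mul continuous_const)).neg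

/-- D4 -/
theorem prime_low_of
    (re_mom : ∃ T₀ : ℝ, ∀ T L : ℝ, T₀ ≤ T → 1 ≤ L → ∀ (Q : Finset ℕ) (r : ℕ → ℝ) (m : ℕ) (x : ℝ),
      (∀ p ∈ Q, p.Prime ∧ (p : ℝ) ≤ L) → L ^ m ≤ T ^ (1 / 16 : ℝ) → (∀ p ∈ Q, r p ^ 2 / p ≤ x) →
      4 * m ^ 2 * x ≤ ∑ p ∈ Q, r p ^ 2 / p → 0 < ∑ p ∈ Q, r p ^ 2 / p →
      IntegrableOn (fun t => (DP Q r t).re ^ (2 * m)) (Icc T (2 * T)) ∧
      T / 2 * (((2 * m).factorial : ℝ) / (2 ^ m * m.factorial)) * ((∑ p ∈ Q, r p ^ 2 / p) / 2) ^ m ≤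
        ∫ t in Icc T (2 * T), (DP Q r t).re ^ (2 * m) ∧
      ∫ t in Icc T (2 * T), (DP Q r t).re ^ (2 * m) ≤
        2 * T * (((2 * m).factorial : ℝ) / (2 ^ m * m.factorial)) * ((∑ p ∈ Q, r p ^ 2 / p) / 2) ^ m)
    {k : ℝ} (hk : 0 < k) (hk8 : k ≤ 1 / 16)
    (var_up : ∃ C T₀ : ℝ, 1 ≤ C ∧ ∀ T L : ℝ, T₀ ≤ T → C ≤ L → L ≤ Real.log T →
      ∑ p ∈ QX (Xk k T L), rk k T L p ^ 2 / p ≤ (1 + 5 * k) / Real.log L)
    (var_low : ∃ C T₀ : ℝ, 1 ≤ C ∧ ∀ T L : ℝ, T₀ ≤ T → C ≤ L → L ≤ Real.log T →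
      (1 - 6 * k) / Real.log L ≤ ∑ p ∈ QX (Xk k T L), rk k T L p ^ 2 / p)
    (rk_le : ∃ C T₀ : ℝ, 1 ≤ C ∧ ∀ T L : ℝ, T₀ ≤ T → C ≤ L → L ≤ Real.log T →
      ∀ p : ℕ, p.Prime → 0 ≤ rk k T L p ∧ rk k T L p ^ 2 / p ≤ C * L ^ (-(2 * k))) :
    ∃ C T₀ : ℝ, 1 ≤ C ∧ ∀ T L e : ℝ, T₀ ≤ T → C ≤ L → L ≤ Real.log T →
    0 < e → e ≤ 2 → ENNReal.ofReal (1 / C * L ^ (-((1 + 30 * k) * e ^ 2)) * T) ≤
      volume {t : ℝ | T ≤ t ∧ t ≤ 2 * T ∧ e < |(DP (QX (Xk k T L)) (rk k T L) t).re|} := by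
  obtain ⟨T0, hmom⟩ := re_mom
  obtain ⟨C1, T1, hC1, hup⟩ := var_up
  obtain ⟨C2, T2, hC2, hlow⟩ := var_low
  obtain ⟨C3, T3, hC3, hrk⟩ := rk_le
  obtain ⟨c, K, hc, hloc⟩ := loc hk (by linarith : k ≤ 1)
  -- eventual inequalities in `L`
  have ev1 : ∀ᶠ L : ℝ in atTop, 32 * (K : ℝ) * Real.log L ≤ L ^ k := by
    have h1 := (isLittleO_log_rpow_atTop hk).bound (c := 1 / (32 * K + 1)) (by positivity)
    filter_upwards [h1, eventually_ge_atTop 1] with L h2 h3
    have h4 : 0 ≤ Real.log L := Real.log_nonneg h3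
    have h5 : 0 ≤ L ^ k := by positivity
    rw [Real.norm_eq_abs, Real.norm_eq_abs, abs_of_nonneg h4, abs_of_nonneg h5, ← div_le_iff₀' (by positivity)] at h2
    have h6 : Real.log L / (1 / (32 * (K : ℝ) + 1)) = (32 * K + 1) * Real.log L := by field_simp
    rw [h6] at h2
    linarith
  have ev2 : ∀ᶠ L : ℝ in atTop, 64 * (K : ℝ) ^ 2 * C3 * Real.log L ^ 3 ≤ L ^ (2 * k) := by
    have h1 := (isLittleO_log_rpow_rpow_atTop (3 : ℝ) (by linarith : 0 < 2 * k)).bound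
      (c := 1 / (64 * K ^ 2 * C3 + 1)) (by positivity)
    filter_upwards [h1, eventually_ge_atTop 1] with L h2 h3
    have h4 : 0 ≤ Real.log L := Real.log_nonneg h3
    have h5 : 0 ≤ L ^ (2 * k) := by positivity
    have h5' : 0 ≤ Real.log L ^ (3 : ℝ) := by positivity
    rw [Real.norm_eq_abs, Real.norm_eq_abs, abs_of_nonneg h5', abs_of_nonneg h5, ← div_le_iff₀' (by positivity)] at h2
    have h7 : Real.log L ^ (3 : ℝ) = Real.log L ^ 3 := by
      rw [← Real.rpow_natCast]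
      norm_num
    rw [h7] at h2
    have h6 : Real.log L ^ 3 / (1 / (64 * (K : ℝ) ^ 2 * C3 + 1)) = (64 * K ^ 2 * C3 + 1) * Real.log L ^ 3 := by
      field_simp
    rw [h6] at h2
    have h8 : 0 ≤ Real.log L ^ 3 := by positivity
    have h9 : 64 * (K : ℝ) ^ 2 * C3 * Real.log L ^ 3 ≤ (64 * (K : ℝ) ^ 2 * C3 + 1) * Real.log L ^ 3 :=
      mul_le_mul_of_nonneg_right (by linarith) h8
    exact h9.trans h2
  obtain ⟨C4, hC4⟩ := eventually_atTop.1 (ev1.and ev2)
  refine ⟨max (max (1 / c) (Real.exp 2)) (max (max C1 C2) (max C3 C4)), max (max T0 T1) (max (max T2 T3) 1), ?_, ?_⟩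
  · exact le_max_of_le_right (le_max_of_le_left (le_max_of_le_left hC1))
  intro T L e hT hL hLT he he2
  set CC : ℝ := max (max (1 / c) (Real.exp 2)) (max (max C1 C2) (max C3 C4)) with hCC
  have hT0 : T0 ≤ T := (le_max_left _ _).trans ((le_max_left _ _).trans hT)
  have hT1 : T1 ≤ T := (le_max_right _ _).trans ((le_max_left _ _).trans hT)
  have hT2 : T2 ≤ T := (le_max_left _ _).trans ((le_max_left _ _).trans ((le_max_right _ _).trans hT))
  have hT3 : T3 ≤ T := (le_max_right _ _).trans ((le_max_left _ _).trans ((le_max_right _ _).trans hT))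
  have hTp1 : 1 ≤ T := (le_max_right _ _).trans ((le_max_right _ _).trans hT)
  have hTp : 0 < T := by linarith
  have hLc : 1 / c ≤ CC := (le_max_left _ _).trans (le_max_left _ _)
  have hL2 : Real.exp 2 ≤ L := ((le_max_right _ _).trans (le_max_left _ _)).trans hL
  have hLC1 : C1 ≤ L := ((le_max_left _ _).trans ((le_max_left _ _).trans (le_max_right _ _))).trans hL
  have hLC2 : C2 ≤ L := ((le_max_right _ _).trans ((le_max_left _ _).trans (le_max_right _ _))).trans hL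
  have hLC3 : C3 ≤ L := ((le_max_left _ _).trans ((le_max_right _ _).trans (le_max_right _ _))).trans hL
  have hLC4 : C4 ≤ L := ((le_max_right _ _).trans ((le_max_right _ _).trans (le_max_right _ _))).trans hL
  have hL0 : 0 < L := (Real.exp_pos 2).trans_le hL2
  have hlog2 : 2 ≤ Real.log L := (Real.le_log_iff_exp_le hL0).2 hL2
  have hlog0 : 0 < Real.log L := by linarith
  obtain ⟨h1, h2⟩ := hC4 L hLC4
  set V : ℝ := ∑ p ∈ QX (Xk k T L), rk k T L p ^ 2 / p with hV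
  have hVlow : (1 - 6 * k) / Real.log L ≤ V := hlow T L hT2 hLC2 hLT
  have hVup : V ≤ (1 + 5 * k) / Real.log L := hup T L hT1 hLC1 hLT
  have hk6 : 5 / 8 ≤ 1 - 6 * k := by linarith
  have hV0 : 0 < V := lt_of_lt_of_le (by positivity) hVlow
  have hV1 : V ≤ 1 := by
    refine hVup.trans ?_
    rw [div_le_one hlog0]
    linarith
  have hlogT : 0 < Real.log T := by linarith
  have hXk : 0 ≤ Xk k T L := by
    unfold Xk
    positivity
  have hQ : ∀ p ∈ QX (Xk k T L), p.Prime ∧ (p : ℝ) ≤ Real.exp (Xk k T L) := by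
    intro p hp
    unfold QX at hp
    rw [Finset.mem_filter, Finset.mem_range] at hp
    refine ⟨hp.2, ?_⟩
    have h3 : p ≤ ⌊Real.exp (Xk k T L)⌋₊ := by omega
    exact (Nat.cast_le.2 h3).trans (Nat.floor_le (Real.exp_pos _).le)
  have hKV : (K : ℝ) / V ≤ 2 * K * Real.log L := by
    rw [div_le_iff₀ hV0]
    have h3 : 5 / 8 / Real.log L ≤ V := le_trans (by gcongr) hVlow
    have h4 : (0 : ℝ) ≤ K := Nat.cast_nonneg K
    have h5 : 2 * K * Real.log L * (5 / 8 / Real.log L) ≤ 2 * K * Real.log L * V :=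
      mul_le_mul_of_nonneg_left h3 (by positivity)
    have h6 : 2 * K * Real.log L * (5 / 8 / Real.log L) = 5 / 4 * (K : ℝ) := by
      field_simp
      ring
    linarith
  have hm : ∀ n : ℕ, (n : ℝ) ≤ K / V →
      IntegrableOn (fun t => (DP (QX (Xk k T L)) (rk k T L) t).re ^ (2 * n)) (Icc T (2 * T)) ∧
      T / 2 * (((2 * n).factorial : ℝ) / (2 ^ n * n.factorial)) * (V / 2) ^ n ≤
        ∫ t in Icc T (2 * T), (DP (QX (Xk k T L)) (rk k T L) t).re ^ (2 * n) ∧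
      ∫ t in Icc T (2 * T), (DP (QX (Xk k T L)) (rk k T L) t).re ^ (2 * n) ≤
        2 * T * (((2 * n).factorial : ℝ) / (2 ^ n * n.factorial)) * (V / 2) ^ n := by
    intro n hn
    have hn2 : (n : ℝ) ≤ 2 * K * Real.log L := hn.trans hKV
    have hn0 : (0 : ℝ) ≤ n := Nat.cast_nonneg n
    refine hmom T (Real.exp (Xk k T L)) hT0 (Real.one_le_exp hXk) _ _ n (C3 * L ^ (-(2 * k))) hQ ?_
      (fun p hp => (hrk T L hT3 hLC3 hLT p (hQ p hp).1).2) ?_ hV0
    · rw [← Real.exp_nat_mul, Real.rpow_def_of_pos hTp]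
      refine Real.exp_le_exp.2 ?_
      unfold Xk
      have h3 : 0 < L ^ k := by positivity
      have h4 : (n : ℝ) * 16 ≤ L ^ k := by linarith
      rw [← mul_div_assoc, div_le_iff₀ h3]
      nlinarith
    · have h3 : (n : ℝ) ^ 2 ≤ (2 * K * Real.log L) ^ 2 := pow_le_pow_left₀ hn0 hn2 2
      have h4 : 0 < L ^ (-(2 * k)) := by positivity
      have h5 : L ^ (-(2 * k)) * L ^ (2 * k) = 1 := by
        rw [← Real.rpow_add hL0]
        simp
      have h6 : 4 * (n : ℝ) ^ 2 * (C3 * L ^ (-(2 * k))) ≤ 4 * (2 * K * Real.log L) ^ 2 * (C3 * L ^ (-(2 * k))) := by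
        have : 0 ≤ C3 * L ^ (-(2 * k)) := by positivity
        nlinarith
      have h7 : 4 * (2 * (K : ℝ) * Real.log L) ^ 2 * (C3 * L ^ (-(2 * k))) * Real.log L ≤ 1 / 4 := by
        have h8 : 4 * (2 * (K : ℝ) * Real.log L) ^ 2 * (C3 * L ^ (-(2 * k))) * Real.log L =
            (64 * (K : ℝ) ^ 2 * C3 * Real.log L ^ 3) * L ^ (-(2 * k)) / 4 := by ring
        rw [h8]
        have h9 : (64 * (K : ℝ) ^ 2 * C3 * Real.log L ^ 3) * L ^ (-(2 * k)) ≤ L ^ (2 * k) * L ^ (-(2 * k)) :=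
          mul_le_mul_of_nonneg_right h2 h4.le
        rw [mul_comm (L ^ (2 * k)), h5] at h9
        linarith
      refine h6.trans (le_trans ?_ hVlow)
      rw [le_div_iff₀ hlog0]
      linarith
  have hcont : Continuous fun t => (DP (QX (Xk k T L)) (rk k T L) t).re :=
    Complex.continuous_re.comp (DP_cont' _ (fun p hp => (hQ p hp).1) _)
  have hfin := hloc T (2 * T) T V (e * (1 + k)) (fun t => (DP (QX (Xk k T L)) (rk k T L) t).re) hcont hTp hV0 hV1
    (by positivity) (by nlinarith) (fun n hn => by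
      have h3 := (hm n hn).2.1
      rw [mul_assoc, gm_conv] at h3
      linarith) (fun n hn => by
      have h3 := (hm n hn).2.2
      rw [mul_assoc, gm_conv] at h3
      linarith)
  refine le_trans (ENNReal.ofReal_le_ofReal ?_) (hfin.trans (measure_mono ?_))
  · refine mul_le_mul_of_nonneg_right ?_ hTp.le
    have h3 : 1 / CC ≤ c := by
      rw [one_div]
      rw [one_div] at hLc
      exact inv_le_of_inv_le₀ hc hLc
    have h4 : L ^ (-((1 + 30 * k) * e ^ 2)) ≤ Real.exp (-((1 + k) * (e * (1 + k)) ^ 2 / V)) := by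
      rw [Real.rpow_def_of_pos hL0]
      refine Real.exp_le_exp.2 ?_
      have h5 : (1 + k) * (e * (1 + k)) ^ 2 / V ≤ Real.log L * ((1 + 30 * k) * e ^ 2) := by
        rw [div_le_iff₀ hV0]
        have h6 : Real.log L * ((1 + 30 * k) * e ^ 2) * ((1 - 6 * k) / Real.log L) ≤
            Real.log L * ((1 + 30 * k) * e ^ 2) * V := mul_le_mul_of_nonneg_left hVlow (by positivity)
        have h7 : Real.log L * ((1 + 30 * k) * e ^ 2) * ((1 - 6 * k) / Real.log L) = (1 + 30 * k) * (1 - 6 * k) * e ^ 2 := by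
          field_simp
        rw [h7] at h6
        refine le_trans ?_ h6
        have h8 : (1 + k) * (e * (1 + k)) ^ 2 = (1 + k) ^ 3 * e ^ 2 := by ring
        rw [h8]
        refine mul_le_mul_of_nonneg_right ?_ (sq_nonneg e)
        nlinarith [mul_pos hk hk, mul_pos (mul_pos hk hk) hk]
      linarith
    exact mul_le_mul h3 h4 (by positivity) hc.le
  · rintro t ⟨ht, hte⟩
    refine ⟨ht.1, ht.2, lt_of_lt_of_le ?_ hte⟩
    nlinarith

end Pool.Agent.Helper62.NS
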