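import Pool.Agent.Helper62.NS.Low
import Pool.Agent.Helper49.NRS.ReMom
import Pool.Agent.Helper82.NS.Fin
import Pool.Agent.Helper93.NS.VarLowR

/-!
# NS: block D4, the lower tail of the prime sum, final form
-/

set_option autoImplicit false
open MeasureTheory Set Filter Topology
open Pool.Agent.Helper57.TX (QX DP rs)
open Pool.Agent.Helper57.NS

namespace Pool.Agent.Helper62.NS

/-- D4: the prime sum, lower bound -/
theorem prime_low {k : ℝ} (hk : 0 < k) (hk8 : k ≤ 1 / 16) : ∃ C T₀ : ℝ, 1 ≤ C ∧ ∀ T L e : ℝ, T₀ ≤ T → C ≤ L → L ≤ Real.log T →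
    0 < e → e ≤ 2 → ENNReal.ofReal (1 / C * L ^ (-((1 + 30 * k) * e ^ 2)) * T) ≤
      volume {t : ℝ | T ≤ t ∧ t ≤ 2 * T ∧ e < |(DP (QX (Xk k T L)) (rk k T L) t).re|} :=
  prime_low_of Pool.Agent.Helper49.NRS.re_mom hk hk8 (Pool.Agent.Helper82.NS.var_up hk (by linarith))
    (Pool.Agent.Helper93.NS.var_low hk (by linarith)) (Pool.Agent.Helper82.NS.rk_le hk (by linarith))

end Pool.Agent.Helper62.NS
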